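import Pool.Agent.W670.ML.Defs

/-! Sub-task ML-IB of project ML (helper670). -/

open Equiv Equiv.Perm

namespace Pool.Agent.W441.ML

theorem card_le_sum {N : ℕ} (g : Equiv.Perm (Fin N)) :
    Multiset.card g.cycleType ≤ g.cycleType.sum := by
  have key : ∀ (s : Multiset ℕ), (∀ x ∈ s, 2 ≤ x) → Multiset.card s ≤ s.sum := by
    intro s
    induction s using Multiset.induction_on with
    | empty => intro _; simp
    | cons a s ih =>
      intro h
      have h1 := ih (fun x hx => h x (Multiset.mem_cons_of_mem hx))
      have h2 := h a (Multiset.mem_cons_self a s)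
      rw [Multiset.card_cons, Multiset.sum_cons]
      omega
  exact key _ (fun x hx => two_le_of_mem_cycleType hx)

theorem ib : Pool.Agent.W670.ML.S_IB := by
  intro n N f hf g τ h
  classical
  let e : Fin n ≃ {y // y ∈ Set.range f} := Equiv.ofInjective f hf
  have hs : ∀ a, ((e a : {y // y ∈ Set.range f}) : Fin N) = f a := fun a => rfl
  have h1 : ∀ a, g.extendDomain e (f a) = f (g a) := by
    intro a
    have := Equiv.Perm.extendDomain_apply_image g e a
    rw [hs, hs] at this
    exact this
  have h2 : ∀ y, y ∉ Set.range f → g.extendDomain e y = y := by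
    intro y hy
    exact Equiv.Perm.extendDomain_apply_not_subtype g e hy
  have hd : Equiv.Perm.Disjoint (g.extendDomain e) ((g.extendDomain e)⁻¹ * τ) := by
    intro x
    by_cases hx : x ∈ Set.range f
    · right
      obtain ⟨a, rfl⟩ := hx
      rw [Equiv.Perm.mul_apply, h a, ← h1 a]
      exact Equiv.symm_apply_apply (g.extendDomain e) (f a)
    · left
      exact h2 x hx
  have hm : τ = (g.extendDomain e) * ((g.extendDomain e)⁻¹ * τ) := by
    rw [mul_inv_cancel_left]
  have hc : τ.cycleType = g.cycleType + ((g.extendDomain e)⁻¹ * τ).cycleType := by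
    conv_lhs => rw [hm]
    rw [hd.cycleType_mul, Equiv.Perm.cycleType_extendDomain]
  have c1 := card_le_sum g
  have c2 := card_le_sum ((g.extendDomain e)⁻¹ * τ)
  unfold Pool.Agent.W670.ML.ind
  rw [hc, Multiset.sum_add, Multiset.card_add]
  omega

end Pool.Agent.W441.ML
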